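import Pool.Agent.W548.MQ.Stm2

set_option autoImplicit false

open WithZero IsDedekindDomain

namespace Pool.Agent.W181.MQ

open W548.MQ

universe u

variable {L : Type u} [Field L]

lemma form_mul (a b : Lˣ) : form a * form b = form (a * b) := by
  unfold form
  rw [← map_mul]
  congr 1
  simp [e, MonoidAlgebra.single_mul_single]

lemma form_one : form (1 : Lˣ) = 1 := by
  unfold form
  rw [← map_one (Ideal.Quotient.mk (Ideal.span {x | Rel L x}))]
  rfl

lemma form_neg (a : Lˣ) : form (-a) = - form a := by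
  rw [eq_neg_iff_add_eq_zero, add_comm]
  unfold form
  rw [← map_add, Ideal.Quotient.eq_zero_iff_mem]
  exact Ideal.subset_span (Rel.hyp a)

lemma form_sq (a : Lˣ) : form a * form a = 1 := by
  rw [form_mul, ← form_one, ← sub_eq_zero]
  unfold form
  rw [← map_sub, Ideal.Quotient.eq_zero_iff_mem]
  have := Rel.sq (1 : Lˣ) a
  rw [one_mul, sq] at this
  exact Ideal.subset_span this

lemma pf_eq (a : Lˣ) : pf a = 1 - form a := by
  unfold pf
  rw [form_neg, form_one, sub_eq_add_neg]

lemma rk_form (a : Lˣ) : rk L (form a) = 1 := by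
  unfold rk form
  rw [Ideal.Quotient.lift_mk]
  exact rk0_e a

lemma pf_mem (a : Lˣ) : pf a ∈ I L := by
  unfold I
  rw [RingHom.mem_ker, pf_eq, map_sub, map_one, rk_form, sub_self]

lemma sq_le : (I L) ^ 2 ≤ I L := by
  exact Ideal.pow_le_self (by norm_num)

lemma mul_mem_sq {x y : W L} (hx : x ∈ I L) (hy : y ∈ I L) : x * y ∈ (I L) ^ 2 := by
  rw [Submodule.pow_succ, Submodule.pow_one]
  exact Ideal.mul_mem_mul hx hy

lemma pf_add (a b : Lˣ) : pf a + pf b - pf (a * b) ∈ (I L) ^ 2 := by
  have : pf a + pf b - pf (a * b) = pf a * pf b := by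
    rw [pf_eq, pf_eq, pf_eq, ← form_mul]; ring
  rw [this]
  exact mul_mem_sq (pf_mem a) (pf_mem b)

lemma two_pf (a : Lˣ) : pf a + pf a ∈ (I L) ^ 2 := by
  have : pf a + pf a = pf a * pf a := by
    rw [pf_eq]
    have := form_sq a
    linear_combination -this
  rw [this]
  exact mul_mem_sq (pf_mem a) (pf_mem a)

/-- The property. -/
def PP (x : W L) : Prop := ∃ d : Lˣ, x - pf d ∈ (I L) ^ 2 ∨ x - (1 + pf d) ∈ (I L) ^ 2

lemma PP_add {x y : W L} (hx : PP x) (hy : PP y) : PP (x + y) := by
  obtain ⟨d, hd⟩ := hx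
  obtain ⟨f, hf⟩ := hy
  have h1 := pf_add d f
  rcases hd with hd | hd <;> rcases hf with hf | hf
  · refine ⟨d * f, Or.inl ?_⟩
    have := add_mem (add_mem hd hf) h1
    convert! this using 1
    ring
  · refine ⟨d * f, Or.inr ?_⟩
    have := add_mem (add_mem hd hf) h1
    convert! this using 1
    ring
  · refine ⟨d * f, Or.inr ?_⟩
    have := add_mem (add_mem hd hf) h1
    convert! this using 1
    ring
  · refine ⟨d * f * (-1), Or.inl ?_⟩
    have h2 := pf_add (d * f) (-1)
    have h3 : pf (-1 : Lˣ) = 2 := by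
      rw [pf_eq, form_neg, form_one]; ring
    have := add_mem (add_mem (add_mem hd hf) h1) h2
    rw [h3] at this
    convert! this using 1
    ring

lemma PP_form (a : Lˣ) : PP (form a) := by
  refine ⟨a, Or.inr ?_⟩
  have := neg_mem (two_pf a)
  convert! this using 1
  rw [pf_eq]; ring

lemma PP_neg_form (a : Lˣ) : PP (- form a) := by
  rw [← form_neg]; exact PP_form _

lemma PP_zero : PP (0 : W L) := by
  refine ⟨1, Or.inl ?_⟩
  rw [pf_eq, form_one, sub_self, sub_self]
  exact zero_mem _

lemma PP_all (x : W L) : PP x := by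
  obtain ⟨z, rfl⟩ := Ideal.Quotient.mk_surjective x
  induction z using MonoidAlgebra.induction_linear with
  | zero => rw [map_zero]; exact PP_zero
  | add f g hf hg => rw [map_add]; exact PP_add hf hg
  | single m r =>
    induction r using Int.induction_on with
    | zero => rw [MonoidAlgebra.single_zero, map_zero]; exact PP_zero
    | succ i hi =>
      rw [MonoidAlgebra.single_add, map_add]
      exact PP_add hi (PP_form m)
    | pred i hi =>
      have h1 : MonoidAlgebra.single m (-(i : ℤ) - 1) =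
          MonoidAlgebra.single m (-(i : ℤ)) + -(MonoidAlgebra.single m (1 : ℤ)) := by
        rw [sub_eq_add_neg, MonoidAlgebra.single_add, ← MonoidAlgebra.single_neg]
      rw [h1, map_add, map_neg]
      exact PP_add hi (PP_neg_form m)

theorem t_DEC : W548.MQ.S_DEC.{u} := by
  intro L _ x hx
  obtain ⟨d, hd | hd⟩ := PP_all x
  · exact ⟨d, hd⟩
  · exfalso
    have h1 := sq_le hd
    unfold I at h1 hx
    rw [RingHom.mem_ker] at h1 hx
    have h2 := pf_mem d
    unfold I at h2
    rw [RingHom.mem_ker] at h2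
    rw [map_sub, map_add, map_one, hx, h2] at h1
    exact absurd h1 (by decide)

end Pool.Agent.W181.MQ
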